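import Mathlib

open NormedSpace

namespace Pool.Agent.Results.MP_066924_al.Closed

/-- `D` is a derivation of the bilinear product `m`. -/
def IsDer {K A : Type} [Field K] [AddCommGroup A] [Module K A] (m : A →ₗ[K] A →ₗ[K] A)
    (D : A →ₗ[K] A) : Prop :=
  ∀ x y, D (m x y) = m (D x) y + m x (D y)

/-- `Δ` is a local derivation of the bilinear product `m`. -/
def IsLocDer {K A : Type} [Field K] [AddCommGroup A] [Module K A] (m : A →ₗ[K] A →ₗ[K] A)
    (Δ : A →ₗ[K] A) : Prop :=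
  ∀ x, ∃ D : A →ₗ[K] A, IsDer m D ∧ Δ x = D x

def DerSub {K A : Type} [Field K] [AddCommGroup A] [Module K A] (m : A →ₗ[K] A →ₗ[K] A) :
    Submodule K (A →ₗ[K] A) where
  carrier := {D | IsDer m D}
  add_mem' := by
    intro a b ha hb x y
    simp only [LinearMap.add_apply, map_add, ha x y, hb x y]; abel
  zero_mem' := by intro x y; simp
  smul_mem' := by
    intro c a ha x y
    simp only [LinearMap.smul_apply, map_smul, ha x y, smul_add]

section normed
variable {K A : Type} [RCLike K] [NormedAddCommGroup A] [NormedSpace K A] [FiniteDimensional K A]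
  (m : A →ₗ[K] A →ₗ[K] A)

lemma key (D Γ : A →ₗ[K] A) (hD : IsDer m D) (hΓ : IsLocDer m Γ) (x : A) :
    ∃ E : A →ₗ[K] A, IsDer m E ∧ Γ (D x) - D (Γ x) = E x := by
  haveI : CompleteSpace A := FiniteDimensional.complete K A
  letI : NormedAlgebra ℚ (A →L[K] A) := .restrictScalars ℚ K _
  let D' : A →L[K] A := LinearMap.toContinuousLinearMap D
  let Γ' : A →L[K] A := LinearMap.toContinuousLinearMap Γ
  let m' : A →L[K] A →L[K] A := LinearMap.toContinuousLinearMap
    ((LinearMap.toContinuousLinearMap : (A →ₗ[K] A) ≃ₗ[K] (A →L[K] A)).toLinearMap ∘ₗ m)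
  have hm : ∀ a b, m' a b = m a b := fun a b => rfl
  let U : K → A →L[K] A := fun t => exp (t • D')
  let V : K → A →L[K] A := fun t => exp (t • (-D'))
  have hU : ∀ t, HasDerivAt U (D' * U t) t := fun t => hasDerivAt_exp_smul_const' D' t
  have hV : ∀ t, HasDerivAt V (V t * (-D')) t := fun t => hasDerivAt_exp_smul_const (-D') t
  have hUV : ∀ t, U t * V t = 1 := by
    intro t
    simp only [U, V, smul_neg]
    rw [← exp_add_of_commute (Commute.refl _).neg_right, add_neg_cancel, exp_zero]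
  have hVU : ∀ t, V t * U t = 1 := by
    intro t
    simp only [U, V, smul_neg]
    rw [← exp_add_of_commute (Commute.refl (t • D')).neg_left, neg_add_cancel, exp_zero]
  have hUV' : ∀ t a, U t (V t a) = a := fun t a => congrArg (fun L : A →L[K] A => L a) (hUV t)
  have hVU' : ∀ t a, V t (U t a) = a := fun t a => congrArg (fun L : A →L[K] A => L a) (hVU t)
  have U0 : U 0 = 1 := by simp [U]
  have V0 : V 0 = 1 := by simp [V]
  have hUa : ∀ a t, HasDerivAt (fun t => U t a) (D (U t a)) t := by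
    intro a t
    have : HasDerivAt (fun t => U t a) (D' (U t a)) t := by
      simpa using (hU t).clm_apply (hasDerivAt_const t a)
    exact this
  have aut : ∀ t a b, V t (m (U t a) (U t b)) = m a b := by
    intro t a b
    have hd : ∀ t, HasDerivAt (fun t => V t (m' (U t a) (U t b))) 0 t := by
      intro t
      have h1 : HasDerivAt (fun t => m' (U t a)) (m' (D (U t a))) t :=
        m'.hasFDerivAt.comp_hasDerivAt t (hUa a t)
      have h2 := (hV t).clm_apply (h1.clm_apply (hUa b t))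
      convert h2 using 1
      rw [ContinuousLinearMap.mul_apply, ← map_add]
      have : (-D') (m' (U t a) (U t b)) = -(D (m (U t a) (U t b))) := rfl
      rw [this, hD, hm, hm, neg_add_cancel, map_zero]
    have := is_const_of_deriv_eq_zero (fun t => (hd t).differentiableAt) (fun t => (hd t).deriv) t 0
    simpa [U0, V0, hm] using this
  have autV : ∀ t a b, V t (m a b) = m (V t a) (V t b) := by
    intro t a b
    rw [← aut t (V t a) (V t b), hUV', hUV']
  have autU : ∀ t a b, U t (m a b) = m (U t a) (U t b) := by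
    intro t a b
    rw [← aut t a b, hUV']
  let W : Submodule K A := (DerSub m).map (LinearMap.applyₗ x)
  have hg : ∀ t, V t (Γ' (U t x)) ∈ W := by
    intro t
    obtain ⟨E, hE, e⟩ := hΓ (U t x)
    refine ⟨(V t).toLinearMap ∘ₗ E ∘ₗ (U t).toLinearMap, fun a b => ?_, ?_⟩
    · simp only [LinearMap.comp_apply, ContinuousLinearMap.coe_coe, autU, hE _ _, map_add, autV,
        hVU']
    · change V t (E (U t x)) = V t (Γ (U t x))
      rw [e]
  have hd : HasDerivAt (fun t => V t (Γ' (U t x))) (Γ (D x) - D (Γ x)) 0 := by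
    have h1 : HasDerivAt (fun t => Γ' (U t x)) (Γ' (D (U 0 x))) 0 :=
      Γ'.hasFDerivAt.comp_hasDerivAt 0 (hUa x 0)
    have h2 := (hV 0).clm_apply h1
    convert h2 using 1
    rw [U0, V0]
    change _ = -(D (Γ x)) + Γ (D x)
    abel
  have hW : Γ (D x) - D (Γ x) ∈ W := by
    by_contra hn
    obtain ⟨φ, h1, h2⟩ := Submodule.exists_dual_map_eq_bot_of_notMem hn inferInstance
    let φ' : A →L[K] K := LinearMap.toContinuousLinearMap φ
    have h3 := φ'.hasFDerivAt.comp_hasDerivAt 0 hd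
    have h4 : (φ' ∘ fun t => V t (Γ' (U t x))) = fun _ => 0 := by
      funext t
      have : φ (V t (Γ' (U t x))) ∈ W.map φ := ⟨_, hg t, rfl⟩
      rw [h2] at this
      exact this
    rw [h4] at h3
    exact h1 (h3.unique (hasDerivAt_const _ _))
  obtain ⟨E, hE, e⟩ := hW
  exact ⟨E, hE, e.symm⟩

lemma main (Δ₁ Δ₂ : A →ₗ[K] A) (h1 : IsLocDer m Δ₁) (h2 : IsLocDer m Δ₂) :
    IsLocDer m (Δ₁ ∘ₗ Δ₂ - Δ₂ ∘ₗ Δ₁) := by
  intro x
  obtain ⟨D₁, hD₁, e₁⟩ := h1 x
  obtain ⟨D₂, hD₂, e₂⟩ := h2 x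
  obtain ⟨E₁, hE₁, f₁⟩ := key m D₂ Δ₁ hD₂ h1 x
  obtain ⟨E₂, hE₂, f₂⟩ := key m D₁ Δ₂ hD₁ h2 x
  obtain ⟨E₃, hE₃, f₃⟩ := key m D₁ D₂ hD₁ (fun y => ⟨D₂, hD₂, rfl⟩) x
  refine ⟨E₁ - E₂ + E₃, (DerSub m).add_mem ((DerSub m).sub_mem hE₁ hE₂) hE₃, ?_⟩
  simp only [LinearMap.add_apply, LinearMap.sub_apply, LinearMap.comp_apply, ← f₁, ← f₂, ← f₃,
    e₁, e₂]
  abel
end normed

theorem result (K A : Type) [RCLike K] [AddCommGroup A] [Module K A] [FiniteDimensional K A]
    (m : A →ₗ[K] A →ₗ[K] A) (Δ₁ Δ₂ : A →ₗ[K] A) (h1 : IsLocDer m Δ₁) (h2 : IsLocDer m Δ₂) :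
    IsLocDer m (Δ₁ ∘ₗ Δ₂ - Δ₂ ∘ₗ Δ₁) := by
  let e := (Module.finBasis K A).equivFun
  letI : NormedAddCommGroup A := NormedAddCommGroup.induced A _ e.toLinearMap e.injective
  letI : NormedSpace K A := NormedSpace.induced K A _ e.toLinearMap
  exact main m Δ₁ Δ₂ h1 h2

end Pool.Agent.Results.MP_066924_al.Closed
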